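import Mathlib

namespace Pool.Agent.H.MP_aa79fc_nt.A

open Finset

variable {K : Type*} [Field K]

def S (g : ℕ → ℕ → K) : ℕ → ℕ → K
  | 0, _ => 1
  | j + 1, n => ∑ m ∈ range (n + 1), g j m * S g j m

theorem mono_snoc {k N : ℕ} (f : Fin k → Fin N) (x : Fin N) (n : ℕ) :
    (Monotone (Fin.snoc f x : Fin (k + 1) → Fin N) ∧
      ∀ j, ((Fin.snoc f x : Fin (k + 1) → Fin N) j).1 ≤ n) ↔
    x.1 ≤ n ∧ Monotone f ∧ ∀ j, (f j).1 ≤ x.1 := by
  constructor
  · rintro ⟨h1, h2⟩
    refine ⟨by simpa using h2 (Fin.last k), fun i j h => ?_, fun j => ?_⟩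
    · simpa using h1 (Fin.castSucc_le_castSucc_iff.2 h)
    · simpa using h1 (Fin.le_last j.castSucc)
  · rintro ⟨h1, h2, h3⟩
    refine ⟨fun i j h => ?_, fun j => ?_⟩
    · induction i using Fin.lastCases <;> induction j using Fin.lastCases
      · rfl
      · exact absurd h (Fin.castSucc_lt_last _).not_ge
      · simpa using h3 _
      · simpa using h2 (Fin.castSucc_le_castSucc_iff.1 h)
    · induction j using Fin.lastCases
      · simpa using h1
      · simpa using (h3 _).trans h1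

open Classical in
theorem sum_mono (g : ℕ → ℕ → K) (N k : ℕ) : ∀ n ≤ N,
    ∑ f : Fin k → Fin (N + 1), (if Monotone f ∧ ∀ j, (f j).1 ≤ n then ∏ j, g j.1 (f j).1 else 0) =
      S g k n := by
  induction k with
  | zero => intro n _; simp [S, Subsingleton.monotone]
  | succ k ih =>
    intro n hn
    rw [← (Fin.snocEquiv fun _ => Fin (N + 1)).sum_comp, Fintype.sum_prod_type, S]
    have e (x : Fin (N + 1)) : ∑ f : Fin k → Fin (N + 1),
        (if x.1 ≤ n ∧ Monotone f ∧ ∀ j, (f j).1 ≤ x.1 then (∏ j, g j.1 (f j).1) * g k x else 0) =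
        if x.1 ≤ n then g k x * S g k x else 0 := by
      rw [← ih x (by omega), mul_sum]
      split_ifs with h
      · exact sum_congr rfl fun f _ => by simp [h, mul_comm]
      · simp [h]
    simp only [Fin.snocEquiv, Equiv.coe_fn_mk, mono_snoc, Fin.prod_univ_castSucc, Fin.snoc_castSucc,
      Fin.snoc_last, Fin.val_castSucc, Fin.val_last, e]
    rw [Fin.sum_univ_eq_sum_range (fun x => if x ≤ n then g k x * S g k x else 0), ← sum_filter]
    congr 1
    ext
    simp
    omega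

theorem abel (t v : ℕ → K) (n : ℕ) : ∑ m ∈ range (n + 1), t m * v m =
    ∑ m ∈ range n, (t m - t (m + 1)) * ∑ l ∈ range (m + 1), v l + t n * ∑ l ∈ range (n + 1), v l := by
  induction n with
  | zero => simp
  | succ n ih =>
    rw [sum_range_succ, ih, sum_range_succ v (n + 1),
      sum_range_succ (fun m => (t m - t (m + 1)) * ∑ l ∈ range (m + 1), v l)]
    ring

variable (q : K)

def P (d : ℕ) : K := ∏ i ∈ range d, q ^ i * (q ^ (i + 1) - 1)

def U (α : K) (m d : ℕ) : K := ∏ i ∈ range d, (1 - α * q ^ (m + i))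

def V (β : K) (m d : ℕ) : K := ∏ i ∈ range d, (1 - β / q ^ (m + i))

def c (α β : K) (m d : ℕ) : K := α ^ m * q ^ (m * m + m * d + d * d) / (β ^ (m + d) * P q d)

def T (α β : K) (m d : ℕ) : K := c q α β m d * U q α m d * V q β m d

def R (α β : K) (m d : ℕ) : K := c q α β m d * U q α (m + 1) d * V q β (m + 1) d

theorem U1 (α : K) (m d : ℕ) : U q α m (d + 1) = U q α m d * (1 - α * q ^ (m + d)) :=
  prod_range_succ _ _

theorem U2 (α : K) (m d : ℕ) : U q α m (d + 1) = U q α (m + 1) d * (1 - α * q ^ m) := by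
  simp only [U, prod_range_succ', add_assoc, add_comm 1, add_zero]

theorem V1 (β : K) (m d : ℕ) : V q β m (d + 1) = V q β m d * (1 - β / q ^ (m + d)) :=
  prod_range_succ _ _

theorem V2 (β : K) (m d : ℕ) : V q β m (d + 1) = V q β (m + 1) d * (1 - β / q ^ m) := by
  simp only [V, prod_range_succ', add_assoc, add_comm 1, add_zero]

variable {q} (q0 : q ≠ 0) (q1 : ∀ i, q ^ (i + 1) - 1 ≠ 0)

include q0 q1

theorem P0 (d : ℕ) : P q d ≠ 0 := prod_ne_zero_iff.2 fun i _ => mul_ne_zero (pow_ne_zero _ q0) (q1 i)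

theorem loc (α β : K) (b0 : β ≠ 0) (m d : ℕ) :
    R q α β m (d + 1) - R q α β m d = T q α β m (d + 1) - T q α β (m + 1) d := by
  have := P0 q0 q1 d
  have := q1 d
  rw [R, R, T, T, U1, V1, U2, V2, c, c, c, show P q (d + 1) = P q d * _ from prod_range_succ _ _]
  field_simp
  ring

theorem ST (α β : K) (b0 : β ≠ 0) (v : ℕ → K) (n : ℕ) :
    ∑ i ∈ range (n + 1), ∑ m ∈ range (i + 1), T q α β m (i - m) * v m =
      ∑ m ∈ range (n + 1), R q α β m (n - m) * ∑ l ∈ range (m + 1), v l := by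
  induction n with
  | zero => simp [T, R, U, V]
  | succ n ih =>
    rw [sum_range_succ, ih, abel (fun m => T q α β m (n + 1 - m)), ← add_assoc, ← sum_add_distrib,
      sum_range_succ (fun m => R q α β m (n + 1 - m) * ∑ l ∈ range (m + 1), v l)]
    refine congrArg₂ _ (sum_congr rfl fun m hm => ?_) ?_
    swap
    · simp [T, R, U, V]
    have := mem_range.1 hm
    rw [show n + 1 - m = n - m + 1 by omega, show n + 1 - (m + 1) = n - m by omega,
      ← loc q0 q1 α β b0]
    ring

omit q1 in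
theorem sx (α β : K) (m d : ℕ) (h1 : 1 - α * q ^ m ≠ 0) (h2 : 1 - α * q ^ (m + d) ≠ 0) :
    (1 / (1 - α * q ^ (m + d)) - 1) * R q (α) (β * q) m d =
      α * T q α β m d * (1 / (1 - α * q ^ m)) := by
  have e : V q (β * q) (m + 1) d = V q β m d := prod_congr rfl fun i _ => by
    rw [add_right_comm, pow_succ, mul_div_mul_right _ _ q0]
  have u := (U1 q α m d).symm.trans (U2 q α m d)
  rw [R, T, e, ← eq_div_iff h2] at *
  rw [u, c, c, mul_pow]
  field_simp
  ring

omit q1 in
theorem sy (α β : K) (b0 : β ≠ 0) (m d : ℕ) (h1 : 1 - β / q ^ m ≠ 0) (h2 : 1 - β / q ^ (m + d) ≠ 0) :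
    1 / (1 - β / q ^ (m + d)) * R q α β m d =
      β⁻¹ * T q (α * q) β m d * (1 / (1 - β / q ^ m) - 1) := by
  have e : U q (α * q) m d = U q α (m + 1) d := prod_congr rfl fun i _ => by ring
  have u := (V1 q β m d).symm.trans (V2 q β m d)
  rw [R, T, e, ← eq_div_iff h2] at *
  rw [u, c, c, mul_pow, show 1 / (1 - β / q ^ m) - 1 = β / q ^ m / (1 - β / q ^ m) by
    rw [div_sub_one h1]; ring]
  generalize 1 - β / q ^ m = y at *
  field_simp

omit q1 in
theorem sz (α β : K) (m d : ℕ) (h1 : 1 - α * q ^ m ≠ 0) (h2 : 1 - α * q ^ (m + d) ≠ 0)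
    (h3 : 1 - β / q ^ m ≠ 0) (h4 : 1 - β / q ^ (m + d) ≠ 0) :
    (1 / (1 - α * q ^ (m + d)) - 1 + 1 / (1 - β / q ^ (m + d))) * R q α β m d =
      T q α β m d * (1 / (1 - α * q ^ m) + (1 / (1 - β / q ^ m) - 1)) := by
  have u := (U1 q α m d).symm.trans (U2 q α m d)
  have v := (V1 q β m d).symm.trans (V2 q β m d)
  have e (n : ℕ) : (1 - α * q ^ n) + (1 - β / q ^ n) - (1 - α * q ^ n) * (1 - β / q ^ n) =
      1 - α * β := by
    field_simp
    ring
  have e1 := (e m).trans (e (m + d)).symm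
  rw [← eq_div_iff h2] at u
  rw [← eq_div_iff h4] at v
  rw [R, T, u, v]
  generalize 1 - β / q ^ m = y at *
  generalize 1 - β / q ^ (m + d) = z at *
  generalize 1 - α * q ^ m = w at *
  generalize 1 - α * q ^ (m + d) = x at *
  field_simp
  linear_combination (c q α β m d * U q α (m + 1) d * V q β (m + 1) d) * (-e1)

theorem main (N k : ℕ) (g g' : ℕ → ℕ → K) (α β κ : ℕ → K) (b0 : ∀ j, β j ≠ 0)
    (a0 : α 0 = 1) (k0 : κ 0 = 1)
    (h : ∀ j < k, ∀ m d, m + d ≤ N → g' j (m + d) * (κ j * R q (α j) (β j) m d) =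
      κ (j + 1) * T q (α (j + 1)) (β (j + 1)) m d * g j m) : ∀ n ≤ N,
    S g' k n = κ k * ∑ m ∈ range (n + 1), R q (α k) (β k) m (n - m) * S g k m := by
  induction k with
  | zero =>
    intro n _
    have := ST q0 q1 1 (β 0) (b0 0) (fun l => if l = 0 then 1 else 0) n
    simp only [mul_ite, mul_one, mul_zero, sum_ite_eq', mem_range, Nat.zero_lt_succ, if_true] at this
    simp only [S, a0, k0, one_mul, mul_one, ← this]
    rw [sum_range_succ', sum_eq_zero fun i _ => by simp [T, U2]]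
    simp [T, U, V, c, P]
  | succ k ih =>
    intro n hn
    simp only [S]
    rw [← ST q0 q1 _ _ (b0 _), mul_sum]
    refine sum_congr rfl fun i hi => ?_
    have := mem_range.1 hi
    rw [ih (fun j hj => h j (by omega)) i (by omega), mul_sum, mul_sum, mul_sum]
    refine sum_congr rfl fun m hm => ?_
    have := mem_range.1 hm
    have e := h k (by omega) m (i - m) (by omega)
    rw [show m + (i - m) = i by omega] at e
    linear_combination S g k m * e

omit q1 in
theorem fin (α : K) (N : ℕ) (v : ℕ → K) :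
    α ^ N * (α ^ N)⁻¹ * v N = (α ^ N)⁻¹ * ∑ m ∈ range (N + 1), R q α (q ^ N) m (N - m) * v m := by
  rw [sum_range_succ, sum_eq_zero fun m hm => ?_]
  · simp [R, U, V, c, P, ← pow_mul, q0]
    ring
  · have := mem_range.1 hm
    rw [show N - m = N - m - 1 + 1 by omega, R, V1, show m + 1 + (N - m - 1) = N by omega,
      div_self (pow_ne_zero _ q0)]
    simp

end Pool.Agent.H.MP_aa79fc_nt.A
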